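import Pool.Agent.Helper58.DM.Goals
import Mathlib

/-!
# The derivations of a compact matrix Lie algebra with trivial centre are inner

An abelian ideal of such an algebra is central (by the invariant positive definite form `-Re tr (X Y)`), so the radical is trivial, so the Killing form is
nondegenerate (characteristic zero), so the derivations are inner.
-/

set_option autoImplicit false

namespace Pool.Agent.Helper2.DM

open Matrix ComplexOrder

attribute [local instance] LieRing.ofAssociativeRing LieAlgebra.ofAssociativeAlgebra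

variable {I : Type} [Fintype I] [DecidableEq I]

theorem eq_zero_of_trace_sq {X : Matrix I I ℂ} (hX : Xᴴ = -X) (h : Matrix.trace (X * X) = 0) : X = 0 := by
  have h1 : Matrix.trace (Xᴴ * X) = 0 := by
    rw [hX, neg_mul, Matrix.trace_neg, h, neg_zero]
  exact Matrix.trace_conjTranspose_mul_self_eq_zero_iff.mp h1

theorem k_inn : Pool.Agent.Helper58.DM.K_INN := by
  intro I _ _ L hsk hcl hcen D hD hadd hsm hder
  let K : LieSubalgebra ℝ (Matrix I I ℂ) := { L with lie_mem' := fun {x y} hx hy => hcl x hx y hy }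
  have hKL : ∀ x, x ∈ K ↔ x ∈ L := fun x => Iff.rfl
  haveI : FiniteDimensional ℝ (Matrix I I ℂ) := inferInstance
  haveI : Module.Finite ℝ K := inferInstanceAs (Module.Finite ℝ K.toSubmodule)
  -- abelian ideals are trivial
  haveI hrad : LieAlgebra.HasTrivialRadical ℝ K := by
    rw [LieAlgebra.hasTrivialRadical_iff_no_abelian_ideals]
    intro J hJ
    rw [eq_bot_iff]
    intro x hx
    rw [LieSubmodule.mem_bot]
    have hab : ∀ a ∈ J, ∀ b ∈ J, ⁅a, b⁆ = 0 := by
      intro a ha b hb
      have h0 := hJ.trivial ⟨a, ha⟩ ⟨b, hb⟩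
      exact congrArg Subtype.val h0
    have hx0 : (x : Matrix I I ℂ) = 0 := by
      refine hcen _ ((hKL _).mp x.2) fun y hy => ?_
      have hxy : ⁅x, (⟨y, hy⟩ : K)⁆ ∈ J := lie_mem_left ℝ K J _ _ hx
      have h2 := hab _ hx _ hxy
      have h3 : ⁅(x : Matrix I I ℂ), ⁅(x : Matrix I I ℂ), y⁆⁆ = 0 := by
        have := congrArg Subtype.val h2
        simpa using this
      have hmem : ⁅(x : Matrix I I ℂ), y⁆ ∈ L := hcl _ x.2 _ hy
      refine eq_zero_of_trace_sq (hsk _ hmem) ?_
      -- tr ([x,y][x,y]) = - tr (y [x,[x,y]])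
      set X : Matrix I I ℂ := (x : Matrix I I ℂ)
      set Z : Matrix I I ℂ := ⁅X, y⁆
      have h4 : Matrix.trace (⁅X, y⁆ * Z) = -Matrix.trace (y * ⁅X, Z⁆) := by
        simp only [Ring.lie_def]
        rw [sub_mul, mul_sub, Matrix.trace_sub, Matrix.trace_sub]
        have e1 : Matrix.trace (X * y * Z) = Matrix.trace (y * (Z * X)) := by
          rw [Matrix.mul_assoc, Matrix.trace_mul_comm, Matrix.mul_assoc]
        have e2 : Matrix.trace (y * X * Z) = Matrix.trace (y * (X * Z)) := by
          rw [Matrix.mul_assoc]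
        rw [e1, e2]; ring
      change Matrix.trace (⁅X, y⁆ * Z) = 0
      rw [h4, h3]
      simp
    exact Subtype.ext hx0
  haveI : LieAlgebra.IsKilling ℝ K := inferInstance
  -- the derivation
  let Dl : K →ₗ[ℝ] K :=
    { toFun := fun x => ⟨D x, hD _ x.2⟩
      map_add' := fun x y => Subtype.ext (hadd _ x.2 _ y.2)
      map_smul' := fun r x => Subtype.ext (hsm r _ x.2) }
  let Dd : LieDerivation ℝ K K :=
    { toLinearMap := Dl
      leibniz' := by
        intro a b
        apply Subtype.ext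
        have h := hder _ a.2 _ b.2
        change D (⁅(a : Matrix I I ℂ), (b : Matrix I I ℂ)⁆) = ⁅(a : Matrix I I ℂ), D b⁆ - ⁅(b : Matrix I I ℂ), D a⁆
        rw [h, ← lie_skew (D (a : Matrix I I ℂ)) (b : Matrix I I ℂ)]
        abel }
  obtain ⟨Z, hZ⟩ := LieDerivation.IsKilling.exists_eq_ad (R := ℝ) (L := K) Dd
  refine ⟨Z, Z.2, fun X hX => ?_⟩
  have h5 : (LieDerivation.ad ℝ K Z) ⟨X, hX⟩ = Dd ⟨X, hX⟩ := by rw [hZ]
  rw [LieDerivation.ad_apply_apply] at h5
  exact (congrArg Subtype.val h5).symm

end Pool.Agent.Helper2.DM
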